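import Pool.Agent.Lib.MP_e3f158_nt.U.Final2

/-!
# MP_e3f158_nt: sums of a prime and an `a`-prime among the multiples of `d`

For every `a`: almost all multiples of the product of the primes `p ≤ log log N` up to `N` have a
representation of type `(a, 0)`, and almost all intervals `(n, n + K log log log N)`, `K → ∞`,
contain an even integer with such a representation.
-/

namespace Pool.Agent.Lib.MP_e3f158_nt.Variants.AlmostAllMultiples

open Pool.Agent.Lib.MP_e3f158_nt

/-- The product of `1 - 1/p` over the primes `p ≤ log log N` not dividing `d`. -/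
noncomputable def psi (d N : ℕ) : ℝ :=
  ∏ p ∈ (Finset.Icc 1 ⌊Real.log (Real.log N)⌋₊).filter (fun p => p.Prime ∧ ¬ p ∣ d),
    (1 - 1 / (p : ℝ))

/-- For all `a`, `C` and `ε > 0`, for all large `N`, all `1 ≤ d ≤ (log N)^C` and all `H ≥ 1`: for at
least `(H ψ / (1 + (H - 1) ψ) - ε) N / d` of the `m ≤ N / d` one of the `H` consecutive multiples
`d m, …, d (m + H - 1)` of `d` is an even integer with a representation of type `(a, 0)`. -/
theorem result (a C : ℕ) (ε : ℝ) (hε : 0 < ε) : ∃ N₀ : ℕ, ∀ N ≥ N₀, ∀ d H : ℕ, 1 ≤ d →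
    (d : ℝ) ≤ (Real.log N) ^ C → 1 ≤ H →
    (H * psi d N / (1 + (H - 1) * psi d N) - ε) * ((N : ℝ) / d) ≤
      (Set.ncard {m : ℕ | 1 ≤ m ∧ d * m ≤ N ∧
        ∃ h < H, Even (d * (m + h)) ∧ HasRep a 0 (d * (m + h))} : ℝ) := by
  obtain ⟨N₀, h⟩ := Filter.eventually_atTop.1 (U.main2 a C ε hε)
  exact ⟨N₀, fun N hN d H hd hdC hH => h N hN d H hd hdC hH⟩

end Pool.Agent.Lib.MP_e3f158_nt.Variants.AlmostAllMultiples
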