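import Pool.Agent.Lib.MP_e3f158_nt.BSR.Two

/-!
# MP_e3f158_nt: exceptions to type `(0,0)` below the square root

`reps 0 0 n` is the number of representations of `n` of type `(0,0)`, that is, as an ordered sum
of two different primes, `S` is the singular series and `J(n) = Σ_{2≤m≤n-2} 1/(log m log(n-m))`.
The theorem `result` shows that, outside the multiples of few moduli, all but `X^(1/2 - δ)` of the
even numbers `n ≤ X` have a representation of type `(0,0)`, and the expected number of them up to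
a factor `1 ± η`, where `δ = c η`. The even numbers `n` without a divisor in
`[(log n)^K, n^(1/2 + 2δ)]` are not multiples of these moduli; for `K ≥ 1` this includes all large
`n = 2 p`, `p` prime.
-/

set_option autoImplicit false

namespace Pool.Agent.Lib.MP_e3f158_nt.Variants.BelowSquareRoot

open Pool.Agent.Lib.MP_e3f158_nt

/-- the number of representations `(x, y)` of type `(a, b)` of `n` -/
noncomputable def reps (a b n : ℕ) : ℕ :=
  Set.ncard {v : ℕ × ℕ | 1 ≤ v.1 ∧ 1 ≤ v.2 ∧ ipr a v.1 + ipr b v.2 = n ∧ ipr a v.1 ≠ ipr b v.2}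

/-- the twin prime constant `∏_{p > 2} (1 - 1/(p-1)²)` -/
noncomputable def twinConstant : ℝ :=
  ∏' p : {p : ℕ // p.Prime ∧ 2 < p}, (1 - 1 / (((p : ℕ) : ℝ) - 1) ^ 2)

/-- the singular series for `n`, `n` even -/
noncomputable def S (n : ℕ) : ℝ :=
  2 * twinConstant * ∏ p ∈ n.primeFactors.filter (fun p => 2 < p), ((p : ℝ) - 1) / ((p : ℝ) - 2)

/-- `Σ 1 / (log m log (n-m))` over `2 ≤ m ≤ n-2` -/
noncomputable def J (n : ℕ) : ℝ :=
  ∑ m ∈ Finset.Icc 2 (n - 2), 1 / (Real.log (m : ℝ) * Real.log ((n - m : ℕ) : ℝ))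

/-- `n` has a representation of type `(0,0)`, and their number differs from `S(n) J(n)` by at most
`η S(n) J(n)` -/
def Good (η : ℝ) (n : ℕ) : Prop :=
  HasRep 0 0 n ∧ |(reps 0 0 n : ℝ) - S n * J n| ≤ η * (S n * J n)

/-- There are a natural number `C` and a real number `c`, `0 < c < 1/16`, such that for all
`0 < η < 1`, with `δ = c η`, and every `K` there is `X₀` such that for all `X ≥ X₀` there is a set
`D` of at most `(log X)^C` integers `d`, `(log X)^K ≤ d ≤ X^(1/2 + 2δ)`, such that all but at most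
`X^(1/2 - δ)` of the even numbers `1 ≤ n ≤ X` which are divisible by no `d ∈ D` with
`d ≤ n^(1/2 + 2δ)` have a representation of type `(0,0)`, and their number differs from
`S(n) J(n)` by at most `η S(n) J(n)`. -/
theorem result : ∃ (C : ℕ) (c : ℝ), 0 < c ∧ c < 1 / 16 ∧ ∀ η : ℝ, 0 < η → η < 1 →
    ∀ K : ℕ, ∃ X₀ : ℕ, ∀ X : ℕ, X₀ ≤ X →
      ∃ D : Finset ℕ, (D.card : ℝ) ≤ Real.log X ^ C ∧
        (∀ d ∈ D, Real.log X ^ K ≤ (d : ℝ) ∧ (d : ℝ) ≤ (X : ℝ) ^ (1 / 2 + 2 * (c * η))) ∧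
        (Set.ncard {n : ℕ | 1 ≤ n ∧ n ≤ X ∧ Even n ∧
          (∀ d ∈ D, (d : ℝ) ≤ (n : ℝ) ^ (1 / 2 + 2 * (c * η)) → ¬ d ∣ n) ∧
          ¬ Good η n} : ℝ) ≤ (X : ℝ) ^ (1 / 2 - c * η) := by
  obtain ⟨C, c, hc, hc16, h⟩ := BSR.core_set
  refine ⟨C, c, hc, hc16, fun η hη hη1 K => ?_⟩
  obtain ⟨X0, hX0⟩ := h η hη hη1 K
  refine ⟨X0, fun X hX => ?_⟩
  obtain ⟨D, hD⟩ := hX0 X hX
  exact ⟨D, hD.1, hD.2.1, BSR.mod_card C K (c * η) η X D hD⟩

end Pool.Agent.Lib.MP_e3f158_nt.Variants.BelowSquareRoot
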