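import Pool.Agent.Lib.MP_dd84fd_nt.L2G.SpecMeas
import Pool.Agent.Lib.MP_dd84fd_nt.EM.Values
import Pool.Agent.Lib.MP_e3f158_nt.BSR.PortEMM

/-!
# MP_e3f158_nt: type `(0,0)` in EVERY residue class to EVERY modulus up to `X^(6/7 - ε)`, also for
very sparse laws

`reps 0 0 n` is the number of representations of `n` of type `(0,0)`, that is, as an ordered sum
of two different primes, `S` is the singular series and `J(n) = Σ_{2≤m≤n-2} 1/(log m log(n-m))`;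
`n` is good if it has a representation of type `(0,0)` and the number of these is at least
`S(n) J(n) / 40 - 1` and at most `2 S(n) J(n)`.

For all `k ≥ 1`, `ε > 0`, `A`, `L` and all large `M`, for all `1 ≤ q ≤ M^(6 k - ε)` and
`0 ≤ a ≤ q M^k` with `(a, q) ≤ (log M)^L` all but at most `M / (log M)^A` of the `M ≤ m < 2 M` are
such that `a + q m^k` is odd or good.

This is deduced from the general form: for all `ε₀ > 0` and `A` there is `B` such that for all `K`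
and all large `X`: let `1 ≤ q ≤ X^(6/7 - ε₀)` be any modulus, `a` any residue class modulo `q` with
`(a, q) ≤ (log X)^K` and `N` any random integer in this class, `1 ≤ N ≤ X`, such that the set of the
`θ ∈ [0, 1]` with `|E e(N θ)| > (log X)^(-B)` has Lebesgue measure at most `q (log X)^K / X`. Then,
except with probability at most `(log X)^(-A)`, `N` is odd or good.
-/

set_option autoImplicit false

namespace Pool.Agent.Lib.MP_e3f158_nt.Variants.EveryModulusTypeZero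

open Finset Pool.Agent.Lib.MP_e3f158_nt

/-- the number of representations `(x, y)` of type `(a, b)` of `n` -/
noncomputable def reps (a b n : ℕ) : ℕ :=
  Set.ncard {v : ℕ × ℕ | 1 ≤ v.1 ∧ 1 ≤ v.2 ∧ ipr a v.1 + ipr b v.2 = n ∧ ipr a v.1 ≠ ipr b v.2}

/-- the twin prime constant `∏_{p > 2} (1 - 1/(p-1)²)` -/
noncomputable def twinConstant : ℝ :=
  ∏' p : {p : ℕ // p.Prime ∧ 2 < p}, (1 - 1 / (((p : ℕ) : ℝ) - 1) ^ 2)

/-- the singular series for `n`, `n` even -/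
noncomputable def S (n : ℕ) : ℝ :=
  2 * twinConstant * ∏ p ∈ n.primeFactors.filter (fun p => 2 < p), ((p : ℝ) - 1) / ((p : ℝ) - 2)

/-- `Σ 1 / (log m log (n-m))` over `2 ≤ m ≤ n-2` -/
noncomputable def J (n : ℕ) : ℝ :=
  ∑ m ∈ Icc 2 (n - 2), 1 / (Real.log (m : ℝ) * Real.log ((n - m : ℕ) : ℝ))

/-- it is not true that `n` has a representation of type `(0,0)` and that their number is at least
`S(n) J(n) / 40 - 1` and at most `2 S(n) J(n)` -/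
def Fails (n : ℕ) : Prop :=
  ¬ (HasRep 0 0 n ∧ 1 / 40 * (S n * J n) - 1 ≤ (reps 0 0 n : ℝ) ∧
    (reps 0 0 n : ℝ) ≤ 2 * (S n * J n))

/-- the Fourier transform `∑_{1 ≤ n ≤ X} ξ(n) e^(2πi n θ)` -/
noncomputable def hat (X : ℕ) (ξ : ℕ → ℝ) (θ : ℝ) : ℂ :=
  ∑ n ∈ Icc 1 X, (ξ n : ℂ) * Complex.exp (2 * Real.pi * (n * θ : ℝ) * Complex.I)

open Classical in
/-- the general form -/
theorem general (ε₀ : ℝ) (hε₀ : 0 < ε₀) (A : ℕ) :
    ∃ B : ℕ, ∀ K : ℕ, ∃ X₀ : ℕ, ∀ X : ℕ, X₀ ≤ X →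
      ∀ q : ℕ, 1 ≤ q → (q : ℝ) ≤ (X : ℝ) ^ (6 / 7 - ε₀) →
      ∀ a : ℕ, (Nat.gcd a q : ℝ) ≤ Real.log X ^ K →
      ∀ ξ : ℕ → ℝ, (∀ n, 0 ≤ ξ n) → (∀ n, ξ n ≠ 0 → n ≡ a [MOD q]) → ∑ n ∈ Icc 1 X, ξ n = 1 →
      MeasureTheory.volume {θ : ℝ | 0 ≤ θ ∧ θ ≤ 1 ∧ 1 / Real.log X ^ B < ‖hat X ξ θ‖} ≤
        ENNReal.ofReal (q * Real.log X ^ K / X) →
      ∑ n ∈ (Icc 1 X).filter (fun n : ℕ => Even n ∧ Fails n), ξ n ≤ 1 / Real.log X ^ A := by
  obtain ⟨B1, hB1⟩ := BSR.em_port_67 ε₀ hε₀ A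
  refine ⟨B1 + 1, fun K => ?_⟩
  obtain ⟨Y1, hY1⟩ := Pool.MP_dd84fd_nt.L2G.spec_meas B1 K
  obtain ⟨Z1, hZ1⟩ := hB1 (K + B1 + 1)
  refine ⟨max Y1 (max Z1 3), fun X hX q hq hqX a ha ξ hξ hcl hsum hvol => ?_⟩
  simp only [max_le_iff] at hX
  obtain ⟨hXY1, hXZ1, hX3⟩ := hX
  have : NeZero (3 * X) := ⟨by omega⟩
  have hL : 1 ≤ Real.log X := by
    have h1 : (3 : ℝ) ≤ X := by exact_mod_cast hX3
    rw [Real.le_log_iff_exp_le (by linarith)]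
    linarith [Real.exp_one_lt_d9]
  have h1 := hY1 X hXY1 (3 * X) rfl ξ hξ hsum.le q hq hvol
  have h2 := hZ1 X hXZ1 (3 * X) rfl q hq hqX a (ha.trans (pow_le_pow_right₀ hL (by omega))) ξ hξ
    hcl hsum.le h1
  have e : ∑ n ∈ (Icc 1 X).filter (fun n : ℕ => Even n ∧ Fails n), ξ n =
      ∑ n ∈ (Icc 1 X).filter (fun n : ℕ => Even n ∧ BSR.BadE (1 / 40) 2 n), ξ n :=
    Finset.sum_congr (Finset.filter_congr fun n _ => Iff.rfl) fun _ _ => rfl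
  rw [e]
  exact h2

open Classical in
/-- (1) For all `k ≥ 1`, `ε > 0`, `A`, `L` there is `M₀` such that for all `M ≥ M₀`, all
`1 ≤ q ≤ M^(6 k - ε)` and all `0 ≤ a ≤ q M^k` with `gcd(a, q) ≤ (log M)^L` at most `M / (log M)^A`
of the `M ≤ m < 2 M` are such that `n = a + q m^k` is even and `Fails n`.  (2) The general form, from
which (1) is deduced: for all `ε₀ > 0` and `A` there is `B` such that for every `K` there is `X₀`
such that for all `X ≥ X₀`, all `1 ≤ q ≤ X^(6/7 - ε₀)`, all `a` with `gcd(a, q) ≤ (log X)^K` and all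
probability laws `ξ` on the integers `1 ≤ n ≤ X`, `n ≡ a (mod q)`, such that the set of the
`θ ∈ [0, 1]` with `|hat X ξ θ| > (log X)^(-B)` has Lebesgue measure at most `q (log X)^K / X`: the
`ξ`-probability of the even `n` with `Fails n` is at most `(log X)^(-A)`. -/
theorem result :
    (∀ k : ℕ, 1 ≤ k → ∀ ε : ℝ, 0 < ε → ∀ A L : ℕ, ∃ M₀ : ℕ, ∀ M : ℕ, M₀ ≤ M →
      ∀ q : ℕ, 1 ≤ q → (q : ℝ) ≤ (M : ℝ) ^ (6 * k - ε) →
      ∀ a : ℕ, a ≤ q * M ^ k → (Nat.gcd a q : ℝ) ≤ Real.log M ^ L →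
      (((Ico M (2 * M)).filter
        (fun m => Even (a + q * m ^ k) ∧ Fails (a + q * m ^ k))).card : ℝ) ≤
          M / Real.log M ^ A) ∧
    (∀ ε₀ : ℝ, 0 < ε₀ → ∀ A : ℕ, ∃ B : ℕ, ∀ K : ℕ, ∃ X₀ : ℕ, ∀ X : ℕ, X₀ ≤ X →
      ∀ q : ℕ, 1 ≤ q → (q : ℝ) ≤ (X : ℝ) ^ (6 / 7 - ε₀) →
      ∀ a : ℕ, (Nat.gcd a q : ℝ) ≤ Real.log X ^ K →
      ∀ ξ : ℕ → ℝ, (∀ n, 0 ≤ ξ n) → (∀ n, ξ n ≠ 0 → n ≡ a [MOD q]) → ∑ n ∈ Icc 1 X, ξ n = 1 →
      MeasureTheory.volume {θ : ℝ | 0 ≤ θ ∧ θ ≤ 1 ∧ 1 / Real.log X ^ B < ‖hat X ξ θ‖} ≤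
        ENNReal.ofReal (q * Real.log X ^ K / X) →
      ∑ n ∈ (Icc 1 X).filter (fun n : ℕ => Even n ∧ Fails n), ξ n ≤ 1 / Real.log X ^ A) :=
  ⟨fun k hk ε hε A L => Pool.MP_dd84fd_nt.EM.values Fails general k hk ε hε A L,
    general⟩

end Pool.Agent.Lib.MP_e3f158_nt.Variants.EveryModulusTypeZero
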