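import Pool.Agent.Lib.MP_e3f158_nt.G.Gaps

/-!
# MP_e3f158_nt: local-global principle and gaps for the integers of type `(a, 0)`
-/

namespace Pool.Agent.Results.MP_e3f158_nt.GapsLocalGlobal

open Pool.Agent.Lib.MP_e3f158_nt Pool.Agent.Lib.MP_e3f158_nt.G Pool.MP_dd84fd_nt.E2
  Pool.MP_dd84fd_nt.En Finset Filter

/-- There is an absolute constant `K` such that for all `a` and `A` there is `C` with the following
properties for all large `N`.

(1) For all but at most `N / (log N) ^ A` of the integers `n ≤ N`: either `n` has a representation of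
type `(a, 0)`, or fewer than `N / (log N) ^ A` of the `a`-primes `r < n - 1` are such that `n - r` has
no prime factor `≤ (log N) ^ C`.

(2) For all but at most `N / (log N) ^ A` of the integers `x ≤ N` there is an even integer of type
`(a, 0)` in `(x, x + (log log N) ^ K]`. -/
theorem result : ∃ K : ℕ, ∀ a A : ℕ, ∃ C : ℕ, ∀ᶠ N : ℕ in Filter.atTop,
    (Set.ncard {n : ℕ | 1 ≤ n ∧ n ≤ N ∧ ¬ HasRep a 0 n ∧ (N : ℝ) / Real.log N ^ A ≤
      (Set.ncard {r : ℕ | (∃ x : ℕ, 1 ≤ x ∧ ipr a x = r) ∧ r + 1 < n ∧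
        ∀ p : ℕ, p.Prime → p ∣ n - r → Real.log N ^ C < (p : ℝ)} : ℝ)} : ℝ) ≤
      N / Real.log N ^ A ∧
    (Set.ncard {x : ℕ | 1 ≤ x ∧ x ≤ N ∧ ∀ n : ℕ, x < n →
      (n : ℝ) ≤ x + Real.log (Real.log N) ^ K → ¬ (Even n ∧ HasRep a 0 n)} : ℝ) ≤
      N / Real.log N ^ A := by
  classical
  obtain ⟨K, hK⟩ := gaps
  refine ⟨K, fun a A => ?_⟩
  obtain ⟨C, hC⟩ := local_global a A
  refine ⟨C, ?_⟩
  have hlog : ∀ᶠ N : ℕ in Filter.atTop, (1 : ℝ) ≤ Real.log N :=
    (Real.tendsto_log_atTop.comp tendsto_natCast_atTop_atTop).eventually_ge_atTop 1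
  filter_upwards [hC C le_rfl, hK a A, hlog] with N h1 h2 hL
  constructor
  · refine le_trans ?_ h1
    norm_cast
    rw [← Set.ncard_coe_finset]
    refine Set.ncard_le_ncard ?_ (Finset.finite_toSet _)
    rintro n ⟨hn1, hn2, hn3, hn4⟩
    rw [Finset.mem_coe, Finset.mem_filter, Finset.mem_Icc]
    refine ⟨⟨hn1, hn2⟩, hn3, hn4.trans ?_⟩
    norm_cast
    rw [← Set.ncard_coe_finset]
    refine Set.ncard_le_ncard ?_ (Finset.finite_toSet _)
    rintro r ⟨⟨x, hx, hxr⟩, hr, hp⟩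
    rw [Finset.mem_coe, good, Finset.mem_filter, Finset.mem_Icc]
    have hr1 : 1 ≤ r := by
      rw [← hxr]
      exact (ipr_prime a x).one_le
    refine ⟨⟨hr1, by omega⟩, ⟨x, hx, hxr⟩, hr, ?_⟩
    rw [coprime_primorial_iff]
    intro p hpp hpz hpd
    have h3 := hp p hpp hpd
    have h4 : (p : ℝ) ≤ Real.log N ^ C := by
      have h5 : ((wX C N : ℕ) : ℝ) ≤ Real.log N ^ C := Nat.floor_le (by positivity)
      exact le_trans (by exact_mod_cast hpz) h5
    linarith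
  · refine le_trans ?_ h2
    norm_cast
    rw [← Set.ncard_coe_finset]
    refine Set.ncard_le_ncard ?_ (Finset.finite_toSet _)
    rintro x ⟨hx1, hx2, hx3⟩
    rw [Finset.mem_coe, Finset.mem_filter, Finset.mem_Icc]
    refine ⟨⟨hx1, hx2⟩, fun n hn => ?_⟩
    rw [Finset.mem_Ioc] at hn
    refine hx3 n hn.1 ?_
    have h0 : 0 ≤ Real.log (Real.log N) := Real.log_nonneg hL
    have h5 : ((⌊Real.log (Real.log N) ^ K⌋₊ : ℕ) : ℝ) ≤ Real.log (Real.log N) ^ K :=
      Nat.floor_le (by positivity)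
    have h6 : (n : ℝ) ≤ ((x + ⌊Real.log (Real.log N) ^ K⌋₊ : ℕ) : ℝ) := by exact_mod_cast hn.2
    push_cast at h6
    linarith

end Pool.Agent.Results.MP_e3f158_nt.GapsLocalGlobal
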