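import Pool.Agent.Lib.MP_e3f158_nt.BSR.PortL
import Pool.Agent.Lib.MP_dd84fd_nt.LX.Main

/-!
# MP_e3f158_nt: `X^(1/5 + ε)` exceptions to type `(0,0)` outside few moduli

`reps 0 0 n` is the number of representations of `n` of type `(0,0)`, that is, as an ordered sum
of two different primes, `S` is the singular series and `J(n) = Σ_{2≤m≤n-2} 1/(log m log(n-m))`.
There is `C` such that for all `1/5 ≤ θ < 1/3`, `ε > 0`, `K` and all large `X` there are at most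
`(log X)^C` moduli `d`, `(log X)^K ≤ d ≤ X^(1-θ)`, such that all but at most `X^(θ + ε)` of the even
numbers `n ≤ X` which are divisible by none of the moduli `d ≤ n^(1-θ)` have a representation of
type `(0,0)`, and the number of these differs from `S(n) J(n)` by at most
`4 (1-3θ)³ S(n) J(n) + 1`. The even numbers `n` without a divisor in `[(log n)^K, n^(1-θ)]` are not
multiples of these moduli; for `K ≥ 1` this includes all large `n = 2 p`, `p` prime.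
-/

set_option autoImplicit false

namespace Pool.Agent.Results.MP_e3f158_nt.GoldbachOneFifth

open Pool.Agent.Lib.MP_e3f158_nt

/-- the number of representations `(x, y)` of type `(a, b)` of `n` -/
noncomputable def reps (a b n : ℕ) : ℕ :=
  Set.ncard {v : ℕ × ℕ | 1 ≤ v.1 ∧ 1 ≤ v.2 ∧ ipr a v.1 + ipr b v.2 = n ∧ ipr a v.1 ≠ ipr b v.2}

/-- the twin prime constant `∏_{p > 2} (1 - 1/(p-1)²)` -/
noncomputable def twinConstant : ℝ :=
  ∏' p : {p : ℕ // p.Prime ∧ 2 < p}, (1 - 1 / (((p : ℕ) : ℝ) - 1) ^ 2)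

/-- the singular series for `n`, `n` even -/
noncomputable def S (n : ℕ) : ℝ :=
  2 * twinConstant * ∏ p ∈ n.primeFactors.filter (fun p => 2 < p), ((p : ℝ) - 1) / ((p : ℝ) - 2)

/-- `Σ 1 / (log m log (n-m))` over `2 ≤ m ≤ n-2` -/
noncomputable def J (n : ℕ) : ℝ :=
  ∑ m ∈ Finset.Icc 2 (n - 2), 1 / (Real.log (m : ℝ) * Real.log ((n - m : ℕ) : ℝ))

/-- `n` has a representation of type `(0,0)`, and their number differs from `S(n) J(n)` by at most
`4 (1-3θ)³ S(n) J(n) + 1` -/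
def Good (θ : ℝ) (n : ℕ) : Prop :=
  HasRep 0 0 n ∧ |(reps 0 0 n : ℝ) - S n * J n| ≤ 4 * (1 - 3 * θ) ^ 3 * (S n * J n) + 1

/-- There is `C` such that for all `1/5 ≤ θ < 1/3`, `ε > 0` and `K` there is `X₀` such that for all
`X ≥ X₀` there is a set `D` of at most `(log X)^C` integers `d`, `(log X)^K ≤ d ≤ X^(1-θ)`, such
that all but at most `X^(θ+ε)` of the even numbers `1 ≤ n ≤ X` which are divisible by no `d ∈ D`
with `d ≤ n^(1-θ)` have a representation of type `(0,0)`, and the number of these differs from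
`S(n) J(n)` by at most `4 (1-3θ)³ S(n) J(n) + 1`. -/
theorem result : ∃ C : ℕ, ∀ θ ε : ℝ, 1 / 5 ≤ θ → θ < 1 / 3 → 0 < ε → ∀ K : ℕ,
    ∃ X₀ : ℕ, ∀ X : ℕ, X₀ ≤ X →
      ∃ D : Finset ℕ, (D.card : ℝ) ≤ Real.log X ^ C ∧
        (∀ d ∈ D, Real.log X ^ K ≤ (d : ℝ) ∧ (d : ℝ) ≤ (X : ℝ) ^ (1 - θ)) ∧
        (Set.ncard {n : ℕ | 1 ≤ n ∧ n ≤ X ∧ Even n ∧
          (∀ d ∈ D, (d : ℝ) ≤ (n : ℝ) ^ (1 - θ) → ¬ d ∣ n) ∧ ¬ Good θ n} : ℝ) ≤
            (X : ℝ) ^ (θ + ε) := by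
  obtain ⟨C, hC⟩ := Pool.MP_dd84fd_nt.LX.fin_l
  obtain ⟨N, hN⟩ := BSR.nearL_of
  refine ⟨C, fun θ ε h1 h2 hε K => ?_⟩
  have hc : 4 * (1 - 3 * θ) ^ 3 ≤ 1 / 2 := by
    have : (1 - 3 * θ) ^ 3 ≤ (2 / 5) ^ 3 := pow_le_pow_left₀ (by linarith) (by linarith) 3
    linarith
  exact BSR.port_abs θ ε (by linarith) hε C K N _ (Good θ)
    (hC θ (ε / 2) h1 h2 (by linarith) K) fun n hn hb => hN n hn _ hc hb

end Pool.Agent.Results.MP_e3f158_nt.GoldbachOneFifth
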