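import Pool.Agent.Lib.MP_e3f158_nt.D2.FinalB

/-!
# MP_e3f158_nt: for every `a` at least `c N / log log log log N` of the even integers up to `N` have a
representation of type `(a, 0)`.
-/

namespace Pool.Agent.Lib.MP_e3f158_nt.Variants.PrimeSummand

open Pool.Agent.Lib.MP_e3f158_nt Finset Filter

open Classical in
theorem ncard_eq (a b N : ℕ) :
    Set.ncard {m : ℕ | 1 ≤ m ∧ m ≤ N ∧ Even m ∧ HasRep a b m} =
      ((Icc 1 N).filter fun m => Even m ∧ HasRep a b m).card := by
  rw [← Set.ncard_coe_finset]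
  congr 1
  ext m
  simp only [Set.mem_ofPred_eq, coe_filter, mem_Icc]
  tauto

/-- For every `a` there is `c > 0` such that for all large `N` at least
`c N / log log log log N` of the even integers in `[1, N]` have a representation of type `(a, 0)`. -/
theorem result (a : ℕ) : ∃ c : ℝ, 0 < c ∧ ∀ᶠ N : ℕ in Filter.atTop,
    c * N / Real.log (Real.log (Real.log (Real.log N))) ≤
      (Set.ncard {m : ℕ | 1 ≤ m ∧ m ≤ N ∧ Even m ∧ HasRep a 0 m} : ℝ) := by
  obtain ⟨c, hc, h⟩ := D2.mainB a
  refine ⟨c, hc, ?_⟩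
  filter_upwards [h] with N hN
  rw [ncard_eq]
  exact hN

end Pool.Agent.Lib.MP_e3f158_nt.Variants.PrimeSummand
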