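import Pool.Agent.Lib.MP_e3f158_nt.Rough2

/-!
# MP_e3f158_nt: for almost all rough moduli every residue class contains even integers of type (a, b)
-/

namespace Pool.Agent.Lib.MP_e3f158_nt.Variants.ResidueClasses

open Pool.Agent.Lib.MP_e3f158_nt Finset Filter Pool.Agent.Lib.MP_dd84fd_nt.Farey

/-- For all `a`, `b` there are `C`, `X₀` such that for `X ≥ X₀` and `2 ≤ z ≤ Q` all but at most
`C (Q/z + Q²/X) (log X)^((a+b+2)/2)` of the integers `q ∈ [2, Q]` without prime factor `≤ z` have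
the property that every residue class mod `q` contains an even integer `n ≤ X` with a
representation of type `(a, b)`. -/
theorem result (a b : ℕ) : ∃ C X₀ : ℝ, ∀ (X : ℝ) (z Q : ℕ), X₀ ≤ X → 2 ≤ z → z ≤ Q →
    (Set.ncard {q : ℕ | 2 ≤ q ∧ q ≤ Q ∧ (∀ p : ℕ, p.Prime → p ∣ q → z < p) ∧
      ¬ ∀ r : ℕ, ∃ n : ℕ, Even n ∧ (n : ℝ) ≤ X ∧ n ≡ r [MOD q] ∧ HasRep a b n} : ℝ)
      ≤ C * ((Q : ℝ) / z + (Q : ℝ) ^ 2 / X) * (√(Real.log X)) ^ (a + b + 2) := by
  classical
  have hlogs : ∀ᶠ Y : ℕ in atTop, 16 * 2 ^ (a + b + 2) * (Real.log Y) ^ (a + b + 2) < Y := by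
    have h1 := (Real.isLittleO_pow_log_id_atTop (n := a + b + 2)).bound
      (c := 1 / (32 * 2 ^ (a + b + 2))) (by positivity)
    filter_upwards [tendsto_natCast_atTop_atTop.eventually h1, eventually_ge_atTop 1] with q hq hq1
    have h2 : 0 ≤ Real.log q := Real.log_natCast_nonneg q
    simp only [id] at hq
    rw [Real.norm_of_nonneg (by positivity), Real.norm_of_nonneg (by positivity)] at hq
    have hq0 : (0 : ℝ) < q := by exact_mod_cast hq1
    calc 16 * 2 ^ (a + b + 2) * (Real.log q) ^ (a + b + 2)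
        ≤ 16 * 2 ^ (a + b + 2) * (1 / (32 * 2 ^ (a + b + 2)) * q) := by gcongr
      _ = q / 2 := by field_simp; norm_num
      _ < q := by linarith
  obtain ⟨Y₀, hY₀⟩ := eventually_atTop.1 ((card_sm_ge a).and ((card_sm_ge b).and
    (hlogs.and (eventually_ge_atTop 16))))
  refine ⟨200 * (√2) ^ (a + b + 2), 2 * Y₀ + 100, ?_⟩
  intro X z Q hX hz hzQ
  set C : ℝ := 200 * (√2) ^ (a + b + 2) with hC
  have hsqrt2 : 1 ≤ √(2 : ℝ) := Real.one_le_sqrt.2 (by norm_num)
  have hC200 : 200 ≤ C := by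
    have : (1 : ℝ) ≤ (√2) ^ (a + b + 2) := one_le_pow₀ hsqrt2
    rw [hC]; linarith
  have hX100 : 100 ≤ X := by
    have : (0 : ℝ) ≤ 2 * Y₀ := by positivity
    linarith
  have hX0 : (0 : ℝ) < X := by linarith
  have hlogX : 1 ≤ Real.log X := by
    rw [Real.le_log_iff_exp_le hX0]
    have := Real.exp_one_lt_d9
    linarith
  have hsL : 1 ≤ √(Real.log X) := Real.one_le_sqrt.2 hlogX
  set P : ℝ := (√(Real.log X)) ^ (a + b + 2) with hP
  have hP1 : 1 ≤ P := one_le_pow₀ hsL
  set Bad : Set ℕ := {q : ℕ | 2 ≤ q ∧ q ≤ Q ∧ (∀ p : ℕ, p.Prime → p ∣ q → z < p) ∧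
      ¬ ∀ r : ℕ, ∃ n : ℕ, Even n ∧ (n : ℝ) ≤ X ∧ n ≡ r [MOD q] ∧ HasRep a b n} with hBad
  have hzr : (2 : ℝ) ≤ z := by exact_mod_cast hz
  have hQr : (z : ℝ) ≤ Q := by exact_mod_cast hzQ
  have hsubI : Bad ⊆ ((Finset.Icc 2 Q : Finset ℕ) : Set ℕ) := by
    intro q hq
    rw [hBad] at hq
    simp only [Set.mem_ofPred_eq] at hq
    rw [Finset.coe_Icc, Set.mem_Icc]
    exact ⟨hq.1, hq.2.1⟩
  have htriv : (Bad.ncard : ℝ) ≤ Q := by
    have h1 : Bad.ncard ≤ (Finset.Icc 2 Q).card := by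
      rw [← Set.ncard_coe_finset]
      exact Set.ncard_le_ncard hsubI (Finset.finite_toSet _)
    rw [Nat.card_Icc] at h1
    have h2 : Bad.ncard ≤ Q := by omega
    exact_mod_cast h2
  have hQz : (0 : ℝ) ≤ (Q : ℝ) / z := by positivity
  have hQX : (0 : ℝ) ≤ (Q : ℝ) ^ 2 / X := by positivity
  set Y : ℕ := ⌊X / 2⌋₊ with hYdef
  have hYX : (Y : ℝ) ≤ X / 2 := Nat.floor_le (by linarith)
  have hYX2 : X / 2 < Y + 1 := Nat.lt_floor_add_one _
  have hYY0 : Y₀ ≤ Y := by
    have : (Y₀ : ℝ) < Y := by linarith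
    exact_mod_cast this.le
  have hY4 : X / 4 ≤ Y := by linarith
  obtain ⟨hA, hB, hlogY, hY16⟩ := hY₀ Y hYY0
  have hYr : (16 : ℝ) ≤ Y := by exact_mod_cast hY16
  have hY0' : (0 : ℝ) < Y := by linarith
  by_cases hQY : Q ≤ Y
  · set L := Real.log Y with hL
    have hL0 : 0 < L := Real.log_pos (by linarith)
    set A : Finset ℕ := sm a Y with hAdef
    set B : Finset ℕ := sm b Y with hBdef
    have hA0 : 0 < (Y : ℝ) / (2 * (2 * L) ^ (a + 1)) := by positivity
    have hB0 : 0 < (Y : ℝ) / (2 * (2 * L) ^ (b + 1)) := by positivity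
    have hAp : (0 : ℝ) < A.card := lt_of_lt_of_le hA0 hA
    have hBp : (0 : ℝ) < B.card := lt_of_lt_of_le hB0 hB
    have hAB : (Y : ℝ) ^ 2 / (4 * (2 * L) ^ (a + b + 2)) ≤ A.card * B.card := by
      calc (Y : ℝ) ^ 2 / (4 * (2 * L) ^ (a + b + 2)) =
          (Y : ℝ) / (2 * (2 * L) ^ (a + 1)) * ((Y : ℝ) / (2 * (2 * L) ^ (b + 1))) := by
            rw [show a + b + 2 = (a + 1) + (b + 1) by ring, pow_add]
            field_simp
            norm_num
        _ ≤ _ := by gcongr
    have hbig : 4 * (Y : ℝ) < A.card * B.card := by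
      refine lt_of_lt_of_le ?_ hAB
      rw [lt_div_iff₀ (by positivity), mul_pow]
      calc 4 * (Y : ℝ) * (4 * (2 ^ (a + b + 2) * L ^ (a + b + 2)))
          = Y * (16 * 2 ^ (a + b + 2) * L ^ (a + b + 2)) := by ring
        _ < Y * Y := by gcongr
        _ = _ := by ring
    have hfin : Bad.Finite := (Finset.finite_toSet _).subset hsubI
    set R : Finset ℕ := hfin.toFinset with hR
    have hRc : Bad.ncard = R.card := Set.ncard_eq_toFinset_card Bad hfin
    have hRmem : ∀ q ∈ R, q ∈ Bad := by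
      intro q hq; rw [hR, Set.Finite.mem_toFinset] at hq; exact hq
    have hR2 : ∀ q ∈ R, 2 ≤ q ∧ q ≤ Q ∧ ∀ p : ℕ, p.Prime → p ∣ q → z < p := by
      intro q hq
      have := hRmem q hq
      rw [hBad] at this
      simp only [Set.mem_ofPred_eq] at this
      exact ⟨this.1, this.2.1, this.2.2.1⟩
    have hle : ∀ c : ℕ, ∀ n ∈ sm c Y, (n : ℝ) ≤ (Y : ℝ) := by
      intro c n hn
      exact_mod_cast (mem_sm hn).2.1
    have hrsA := rough_sum A Y hY0' (hle a) z (by omega) Q hzQ R hR2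
    have hrsB := rough_sum B Y hY0' (hle b) z (by omega) Q hzQ R hR2
    have hVA : ∀ q ∈ R, ∑ a ∈ Ico 1 q, F1 A ((a : ℝ) / q) = Vq A q :=
      fun q hq => (Vq_eq A q (by have := (hR2 q hq).1; omega)).symm
    have hVB : ∀ q ∈ R, ∑ a ∈ Ico 1 q, F1 B ((a : ℝ) / q) = Vq B q :=
      fun q hq => (Vq_eq B q (by have := (hR2 q hq).1; omega)).symm
    rw [sum_congr rfl hVA] at hrsA
    rw [sum_congr rfl hVB] at hrsB
    have hbigV : ∀ q ∈ R, (A.card : ℝ) * B.card / 2 ≤ √(Vq A q) * √(Vq B q) := by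
      intro q hq
      obtain ⟨hq2, hqQ, hqp⟩ := hR2 q hq
      have hVA0 := Vq_nonneg A q (by omega)
      have hVB0 := Vq_nonneg B q (by omega)
      rw [← Real.sqrt_mul hVA0]
      by_contra hlt
      push Not at hlt
      have hV : Vq A q * Vq B q ≤ ((A.card : ℝ) * B.card / 2) ^ 2 := by
        rw [← Real.sqrt_le_left (by positivity)]
        exact hlt.le
      have hodd : Odd q := by
        rcases Nat.even_or_odd q with h | h
        · exfalso
          have := hqp 2 Nat.prime_two h.two_dvd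
          omega
        · exact h
      have := hRmem q hq
      rw [hBad] at this
      simp only [Set.mem_ofPred_eq] at this
      apply this.2.2.2
      intro r
      obtain ⟨n, h1, h2, h3, h4⟩ := good_class a b Y q r (by omega) hodd (by omega) hbig hV
      refine ⟨n, h1, ?_, h3, h4⟩
      have : (n : ℝ) ≤ 2 * Y := by exact_mod_cast h2
      linarith
    set W : ℝ := Q * (2 * Q + 8 * Real.pi * Y / z) with hW
    have hW0 : 0 ≤ W := by
      have := Real.pi_pos
      positivity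
    have hsumbig : (R.card : ℝ) * ((A.card : ℝ) * B.card / 2) ≤
        W * √((A.card : ℝ) * B.card) := by
      calc (R.card : ℝ) * ((A.card : ℝ) * B.card / 2)
          ≤ ∑ q ∈ R, √(Vq A q) * √(Vq B q) := by
            rw [← nsmul_eq_mul]
            exact Finset.card_nsmul_le_sum R _ _ hbigV
        _ ≤ √(∑ q ∈ R, √(Vq A q) ^ 2) * √(∑ q ∈ R, √(Vq B q) ^ 2) :=
            Real.sum_mul_le_sqrt_mul_sqrt _ _ _
        _ = √(∑ q ∈ R, Vq A q) * √(∑ q ∈ R, Vq B q) := by
            congr 2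
            · exact sum_congr rfl fun q hq =>
                Real.sq_sqrt (Vq_nonneg A q (by have := (hR2 q hq).1; omega))
            · exact sum_congr rfl fun q hq =>
                Real.sq_sqrt (Vq_nonneg B q (by have := (hR2 q hq).1; omega))
        _ ≤ √(W * A.card) * √(W * B.card) := by
            refine mul_le_mul (Real.sqrt_le_sqrt ?_) (Real.sqrt_le_sqrt ?_) (Real.sqrt_nonneg _)
              (Real.sqrt_nonneg _)
            · refine hrsA.trans (le_of_eq ?_)
              rw [hW]; ring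
            · refine hrsB.trans (le_of_eq ?_)
              rw [hW]; ring
        _ = W * √((A.card : ℝ) * B.card) := by
            rw [← Real.sqrt_mul (by positivity),
              show W * (A.card : ℝ) * (W * B.card) = W ^ 2 * ((A.card : ℝ) * B.card) by ring,
              Real.sqrt_mul (by positivity), Real.sqrt_sq hW0]
    have hsAB : 0 < √((A.card : ℝ) * B.card) := Real.sqrt_pos.2 (by positivity)
    have h1 : (R.card : ℝ) * √((A.card : ℝ) * B.card) ≤ 2 * W := by
      have h2 : (R.card : ℝ) * √((A.card : ℝ) * B.card) * √((A.card : ℝ) * B.card) ≤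
          2 * W * √((A.card : ℝ) * B.card) := by
        rw [mul_assoc, Real.mul_self_sqrt (by positivity)]
        linarith
      exact le_of_mul_le_mul_right h2 hsAB
    have hLX : L ≤ Real.log X := Real.log_le_log hY0' (by linarith)
    have hlow : (Y : ℝ) / (2 * ((√2) ^ (a + b + 2) * P)) ≤ √((A.card : ℝ) * B.card) := by
      rw [Real.le_sqrt (by positivity) (by positivity)]
      refine le_trans ?_ hAB
      rw [div_pow]
      refine div_le_div_of_nonneg_left (by positivity) (by positivity) ?_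
      have e1 : (2 * ((√2) ^ (a + b + 2) * P)) ^ 2 = 4 * (2 * Real.log X) ^ (a + b + 2) := by
        rw [hP, ← mul_pow, mul_pow 2, ← pow_mul, mul_comm (a + b + 2) 2, pow_mul, mul_pow (√2),
          Real.sq_sqrt (by norm_num), Real.sq_sqrt (by linarith)]
        norm_num
      rw [e1]
      gcongr
    have h2 : (R.card : ℝ) * ((Y : ℝ) / (2 * ((√2) ^ (a + b + 2) * P))) ≤ 2 * W :=
      le_trans (by gcongr) h1
    rw [hRc]
    have h3 : (R.card : ℝ) ≤ 4 * W * ((√2) ^ (a + b + 2) * P) / Y := by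
      rw [le_div_iff₀ hY0']
      rw [← mul_div_assoc, div_le_iff₀ (by positivity)] at h2
      linarith
    refine h3.trans ?_
    have hpi4 : Real.pi ≤ 4 := Real.pi_le_four
    have hpi0 := Real.pi_pos
    have h4 : 4 * W / Y ≤ 200 * ((Q : ℝ) / z + (Q : ℝ) ^ 2 / X) := by
      have e1 : 4 * W / Y = 8 * ((Q : ℝ) ^ 2 / Y) + 32 * Real.pi * ((Q : ℝ) / z) := by
        rw [hW]
        field_simp
        ring
      rw [e1]
      have e2 : (Q : ℝ) ^ 2 / Y ≤ 4 * ((Q : ℝ) ^ 2 / X) := by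
        rw [← mul_div_assoc, div_le_div_iff₀ hY0' hX0]
        nlinarith [sq_nonneg (Q : ℝ)]
      have e3 : 32 * Real.pi * ((Q : ℝ) / z) ≤ 200 * ((Q : ℝ) / z) :=
        mul_le_mul_of_nonneg_right (by linarith) hQz
      linarith
    calc 4 * W * ((√2) ^ (a + b + 2) * P) / Y = 4 * W / Y * ((√2) ^ (a + b + 2) * P) := by ring
      _ ≤ 200 * ((Q : ℝ) / z + (Q : ℝ) ^ 2 / X) * ((√2) ^ (a + b + 2) * P) := by gcongr
      _ = _ := by rw [hC]; ring
  · push Not at hQY
    refine htriv.trans ?_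
    have hQY' : (Y : ℝ) ≤ Q := by exact_mod_cast hQY.le
    have h1 : (Q : ℝ) / 4 ≤ (Q : ℝ) ^ 2 / X := by
      rw [div_le_div_iff₀ (by norm_num) hX0]
      nlinarith
    have hQ0 : (0 : ℝ) ≤ Q := Nat.cast_nonneg _
    calc (Q : ℝ) ≤ 200 * ((Q : ℝ) / 4) * 1 := by linarith
      _ ≤ C * ((Q : ℝ) / z + (Q : ℝ) ^ 2 / X) * P := by
          refine mul_le_mul ?_ hP1 (by norm_num) (by positivity)
          exact mul_le_mul hC200 (by linarith) (by positivity) (by linarith)

end Pool.Agent.Lib.MP_e3f158_nt.Variants.ResidueClasses
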