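import Pool.Agent.Lib.MP_e3f158_nt.LinImg

/-!
# MP_e3f158_nt: even integers of type (a, b) in sparse sets modulo a prime

Polynomial orbits and pseudorandom sequences.
-/

namespace Pool.Agent.Lib.MP_e3f158_nt.Variants.SparseOrbits

open Pool.Agent.Lib.MP_e3f158_nt Finset Filter

/-- For all `a`, `b` there are positive constants `c`, `η` such that for all large primes `q` every
finite sequence `(f s)`, `s ∈ S`, in `ℤ/q` all of whose nontrivial exponential sums are at most
`η |S| / (log q)^(max(a,b)+1)` has at least `c |S| / (log q)^(min(a,b)+1)` terms whose least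
nonnegative residue is an even integer with a representation of type `(a, b)`; in particular, for
all `d ≥ 2`, `ε > 0`, all large primes `q`, every polynomial `P` of degree `d` over `ℤ/q` and every
interval of `L ≥ q^(1/d+ε)` consecutive `x ≥ 0`, the same holds for at least
`c L / (log q)^(min(a,b)+1)` of the values `P(x)`. -/
theorem result (a b : ℕ) : ∃ c η : ℝ, 0 < c ∧ 0 < η ∧
    (∃ q₀ : ℕ, ∀ (q : ℕ) [Fact q.Prime], q₀ ≤ q →
      ∀ (ι : Type) (S : Finset ι) (f : ι → ZMod q),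
      (∀ h : ZMod q, h ≠ 0 → ‖∑ s ∈ S, (ZMod.stdAddChar (h * f s) : ℂ)‖ ≤
        η * S.card / (Real.log q) ^ (max a b + 1)) →
      c * S.card / (Real.log q) ^ (min a b + 1) ≤
        (({s : ι | s ∈ S ∧ Even (f s).val ∧ HasRep a b (f s).val}.ncard : ℕ) : ℝ)) ∧
    (∀ (d : ℕ) (ε : ℝ), 2 ≤ d → 0 < ε → ∃ q₀ : ℕ, ∀ (q : ℕ) [Fact q.Prime], q₀ ≤ q →
      ∀ P : Polynomial (ZMod q), P.natDegree = d →
      ∀ u L : ℕ, (q : ℝ) ^ (1 / (d : ℝ) + ε) ≤ L →
      c * L / (Real.log q) ^ (min a b + 1) ≤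
        (({x : ℕ | (u ≤ x ∧ x < u + L) ∧ Even (P.eval (x : ZMod q)).val ∧
          HasRep a b (P.eval (x : ZMod q)).val}.ncard : ℕ) : ℝ)) := by
  wlog hba : b ≤ a generalizing a b
  · have h := this b a (by omega)
    rw [min_comm, max_comm] at h
    simp_rw [hasRep_symm b a] at h
    exact h
  rw [min_eq_right hba]
  set c' : ℝ := 1 / (48 * 2 ^ (b + 1)) with hc'
  have hc'0 : 0 < c' := by positivity
  have hc'2 : c' ≤ 1 / (48 * 2 ^ (b + 1)) := le_rfl
  have hc'3 : c' ≤ 1 / (24 * 2 ^ (b + 1)) := by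
    refine hc'2.trans (one_div_le_one_div_of_le (by positivity) ?_)
    have : (0 : ℝ) < 2 ^ (b + 1) := by positivity
    linarith
  refine ⟨c', 1 / (12 * 2 ^ (max a b + 1)), hc'0, by positivity, ?_, ?_⟩
  · obtain ⟨q₀, hq₀⟩ := eventually_atTop.1 (pseudo2 a b)
    refine ⟨q₀, fun q _ hq ι S f hM => ?_⟩
    have hlog : 0 ≤ Real.log q := Real.log_natCast_nonneg q
    have h := hq₀ q hq ι S f hM
    refine le_trans ?_ h
    gcongr
  · intro d ε hd hε
    obtain ⟨k, rfl⟩ : ∃ k, d = k + 1 := ⟨d - 1, by omega⟩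
    obtain ⟨q₀, hq₀⟩ := eventually_atTop.1 (orbit2 a b k (by omega) ε hε)
    refine ⟨q₀, fun q _ hq P hP u L hL => ?_⟩
    have hlog : 0 ≤ Real.log q := Real.log_natCast_nonneg q
    have h := hq₀ q hq P hP u L (by push_cast at hL; exact hL)
    refine le_trans ?_ h
    gcongr

end Pool.Agent.Lib.MP_e3f158_nt.Variants.SparseOrbits
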