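import Pool.Agent.Lib.MP_e3f158_nt.BSR.PortI
import Pool.Agent.Lib.MP_dd84fd_nt.IY.Main

/-!
# MP_e3f158_nt: exceptions to type `(0,0)` below the square root

`reps 0 0 n` is the number of representations of `n` of type `(0,0)`, that is, as an ordered sum
of two different primes, `S` is the singular series and `J(n) = Σ_{2≤m≤n-2} 1/(log m log(n-m))`.
The theorem `result` shows, for every exponent `2/5 < θ < 1/2`, that outside the multiples of few
moduli all but `X^θ` of the even numbers `n ≤ X` have a representation of type `(0,0)`, and that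
their number is the expected one up to a factor `1 ± 17 (1 - 2θ)²` (at most `1 ± 0.68`). The even
numbers `n` without a divisor in `[(log n)^K, n^(1 - θ + ε)]` are not multiples of these moduli;
for `K ≥ 1` this includes all large `n = 2 p`, `p` prime.
-/

set_option autoImplicit false

namespace Pool.Agent.Lib.MP_e3f158_nt.Variants.TwoFifths

open Pool.Agent.Lib.MP_e3f158_nt

/-- the number of representations `(x, y)` of type `(a, b)` of `n` -/
noncomputable def reps (a b n : ℕ) : ℕ :=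
  Set.ncard {v : ℕ × ℕ | 1 ≤ v.1 ∧ 1 ≤ v.2 ∧ ipr a v.1 + ipr b v.2 = n ∧ ipr a v.1 ≠ ipr b v.2}

/-- the twin prime constant `∏_{p > 2} (1 - 1/(p-1)²)` -/
noncomputable def twinConstant : ℝ :=
  ∏' p : {p : ℕ // p.Prime ∧ 2 < p}, (1 - 1 / (((p : ℕ) : ℝ) - 1) ^ 2)

/-- the singular series for `n`, `n` even -/
noncomputable def S (n : ℕ) : ℝ :=
  2 * twinConstant * ∏ p ∈ n.primeFactors.filter (fun p => 2 < p), ((p : ℝ) - 1) / ((p : ℝ) - 2)

/-- `Σ 1 / (log m log (n-m))` over `2 ≤ m ≤ n-2` -/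
noncomputable def J (n : ℕ) : ℝ :=
  ∑ m ∈ Finset.Icc 2 (n - 2), 1 / (Real.log (m : ℝ) * Real.log ((n - m : ℕ) : ℝ))

/-- `n` has a representation of type `(0,0)`, and their number differs from `S(n) J(n)` by at most
`η S(n) J(n)` -/
def Good (η : ℝ) (n : ℕ) : Prop :=
  HasRep 0 0 n ∧ |(reps 0 0 n : ℝ) - S n * J n| ≤ η * (S n * J n)

/-- There is a natural number `C` such that for all real `2/5 < θ < 1/2`, `ε > 0` and every `K`
there is `X₀` such that for all `X ≥ X₀` there is a set `D` of at most `(log X)^C` integers `d`,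
`(log X)^K ≤ d ≤ X^(1 - θ + ε)`, such that all but at most `X^θ` of the even numbers
`1 ≤ n ≤ X` which are divisible by no `d ∈ D` with `d ≤ n^(1 - θ + ε)` have a representation of
type `(0,0)`, and their number differs from `S(n) J(n)` by at most
`17 (1 - 2θ)² S(n) J(n)`. -/
theorem result : ∃ C : ℕ, ∀ θ : ℝ, 2 / 5 < θ → θ < 1 / 2 → ∀ ε : ℝ, 0 < ε →
    ∀ K : ℕ, ∃ X₀ : ℕ, ∀ X : ℕ, X₀ ≤ X →
      ∃ D : Finset ℕ, (D.card : ℝ) ≤ Real.log X ^ C ∧
        (∀ d ∈ D, Real.log X ^ K ≤ (d : ℝ) ∧ (d : ℝ) ≤ (X : ℝ) ^ (1 - θ + ε)) ∧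
        (Set.ncard {n : ℕ | 1 ≤ n ∧ n ≤ X ∧ Even n ∧
          (∀ d ∈ D, (d : ℝ) ≤ (n : ℝ) ^ (1 - θ + ε) → ¬ d ∣ n) ∧
          ¬ Good (17 * (1 - 2 * θ) ^ 2) n} : ℝ) ≤ (X : ℝ) ^ θ := by
  obtain ⟨C, h⟩ := BSR.portI 16 17 (by norm_num) (by norm_num) (by norm_num)
    Pool.MP_dd84fd_nt.IY.fin_i
  refine ⟨C, fun θ hθ hθ2 ε hε K => ?_⟩
  obtain ⟨X0, hX0⟩ := h θ hθ hθ2 ε hε K
  refine ⟨X0, fun X hX => ?_⟩
  obtain ⟨D, h1, h2, h3⟩ := hX0 X hX
  refine ⟨D, h1, h2, h3 _ ?_⟩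
  rintro n ⟨b1, b2, a1, a2, a3⟩
  exact ⟨b1, b2, a1, fun d hd hdn => not_le.1 (fun hle => a2 d hd hle hdn), a3⟩

end Pool.Agent.Lib.MP_e3f158_nt.Variants.TwoFifths
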