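import Pool.Agent.Lib.MP_e3f158_nt.PSW.Final

/-!
# MP_e3f158_nt: even integers of type `(a, 0)` on the whole range of Q1, uniformly in `a`
-/

namespace Pool.Agent.Results.MP_e3f158_nt.UniformTypeZero

open Pool.Agent.Lib.MP_e3f158_nt

/-- There are absolute constants `c, C > 0` such that for all `a, W` and all `X` with
`X ≥ 2 ^ (a ^ 2 + 2 a + 5)` or `X ≥ exp (C (a + 2) log (a + 2))`, at least
`c X min (1, (W + 1) / log (a + 2 + log log log X))` of the integers `n ∈ [X, 2X]` have an even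
integer of type `(a, 0)` in `[n, n + W]`. -/
theorem result : ∃ c C : ℝ, 0 < c ∧ 0 < C ∧ ∀ a X W : ℕ,
    (2 ^ (a ^ 2 + 2 * a + 5) ≤ X ∨ Real.exp (C * (((a : ℝ) + 2) * Real.log (a + 2))) ≤ X) →
    c * (X * min 1 (((W : ℝ) + 1) / Real.log (a + 2 + Real.log (Real.log (Real.log X))))) ≤
      (Set.ncard {n : ℕ | X ≤ n ∧ n ≤ 2 * X ∧
        ∃ m, n ≤ m ∧ m ≤ n + W ∧ Even m ∧ HasRep a 0 m} : ℝ) :=
  PSW.final_upper

end Pool.Agent.Results.MP_e3f158_nt.UniformTypeZero
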